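import Mathlib

set_option autoImplicit false

namespace Pool.Agent.Results.MP_8ccf7f_al.Counterexample

open TensorProduct DualNumber TrivSqZeroExt

universe u v

section
variable (k : Type*) [Field k]

/-- The dual numbers `R = k[ε] = k[t]/(t²)`. -/
def R : Type _ := k[ε]

noncomputable instance : CommRing (R k) := inferInstanceAs (CommRing k[ε])

/-- `k[ε] ⊗ M`. -/
def Ext (M : Type*) [AddCommGroup M] [Module k M] : Type _ := k[ε] ⊗[k] M

variable (M N : Type*) [AddCommGroup M] [Module k M] [AddCommGroup N] [Module k N]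

noncomputable instance : AddCommGroup (Ext k M) := inferInstanceAs (AddCommGroup (k[ε] ⊗[k] M))

noncomputable instance : Module (R k) (Ext k M) := inferInstanceAs (Module k[ε] (k[ε] ⊗[k] M))

/-- The augmentation `k[ε] → k`. -/
noncomputable def aug : k[ε] →ₗ[k] k := (fstHom k k k).toLinearMap

/-- Reduction modulo the maximal ideal `(ε)`. -/
noncomputable def red (x : Ext k M) : M := TensorProduct.lid k M ((aug k).rTensor M x)

variable {M N}

/-- `a ↦ 1 ⊗ a`. -/
noncomputable def inc (a : M) : Ext k M := (1 : k[ε]) ⊗ₜ[k] a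

variable {k}

/-- `id ⊗ f`. -/
noncomputable def ext (f : M →ₗ[k] N) (x : Ext k M) : Ext k N := f.lTensor k[ε] x

/-- `R`-bilinear multiplications. -/
def IsBilin (m : Ext k M → Ext k M → Ext k M) : Prop :=
  (∀ x, IsLinearMap (R k) (m x)) ∧ ∀ y, IsLinearMap (R k) (m · y)

variable {A : Type*} [Ring A] [Algebra k A]

/-- An `R`-deformation of `A`. -/
def IsDeformation (m : Ext k A → Ext k A → Ext k A) : Prop :=
  IsBilin m ∧ (∀ x y z, m (m x y) z = m x (m y z)) ∧ (∃ e, ∀ x, m e x = x ∧ m x e = x) ∧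
    ∀ x y, red k A (m x y) = red k A x * red k A y

/-- Equivalence of deformations. -/
def Equivalent (m m' : Ext k A → Ext k A → Ext k A) : Prop :=
  ∃ Φ : Ext k A → Ext k A, IsLinearMap (R k) Φ ∧ Function.Bijective Φ ∧
    (∀ x, red k A (Φ x) = red k A x) ∧ ∀ x y, Φ (m x y) = m' (Φ x) (Φ y)

variable (k) (B : Type*) [Ring B] [Algebra k B] [Module B A] [IsScalarTower k B A]

/-- `b ↦ b • a`. -/
noncomputable def orb (a : A) : B →ₗ[k] A := (LinearMap.toSpanSingleton B A a).restrictScalars k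

/-- `b ⊗ b' ↦ (b • a) * (b' • a')`, that is `F ↦ μ(F(a ⊗ a'))`. -/
noncomputable def act (a a' : A) : B ⊗[k] B →ₗ[k] A :=
  LinearMap.mul' k A ∘ₗ TensorProduct.map (orb k B a) (orb k B a')

variable {k}

/-- `m` is the product `a * a' = μ(F(a ⊗ a'))`, extended `R`-bilinearly, for some
`F ∈ R ⊗ (B ⊗ B)` with `F ≡ 1 ⊗ 1`. -/
def IsTwist (m : Ext k A → Ext k A → Ext k A) : Prop :=
  IsBilin m ∧ ∃ F : Ext k (B ⊗[k] B), red k _ F = (1 : B) ⊗ₜ[k] (1 : B) ∧
    ∀ a a' : A, m (inc k a) (inc k a') = ext (act k B a a') F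

variable (k) in
noncomputable def redL (M : Type*) [AddCommGroup M] [Module k M] : k[ε] ⊗[k] M →ₗ[k] M :=
  TensorProduct.lid k M ∘ₗ (fstHom k k k).toLinearMap.rTensor M

variable (k) in
noncomputable def coe1 (M : Type*) [AddCommGroup M] [Module k M] : k[ε] ⊗[k] M →ₗ[k] M :=
  TensorProduct.lid k M ∘ₗ (sndHom k k).rTensor M

lemma decomp {M : Type*} [AddCommGroup M] [Module k M] (x : k[ε] ⊗[k] M) :
    x = 1 ⊗ₜ redL k M x + (ε : k[ε]) • 1 ⊗ₜ coe1 k M x := by
  induction x using TensorProduct.induction_on with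
  | zero => simp
  | tmul r m =>
    simp only [redL, coe1, LinearMap.comp_apply, LinearMap.rTensor_tmul, LinearEquiv.coe_coe,
      lid_tmul, ← smul_tmul, smul_tmul', ← add_tmul]
    congr 1
    ext <;> simp
  | add x y hx hy =>
    simp only [map_add, tmul_add, smul_add]
    rw [add_add_add_comm, ← hx, ← hy]

end

variable {k V : Type*} [Field k] [AddCommGroup V] [Module k V] [Module kᵐᵒᵖ V]
  [IsCentralScalar k V] (φ : V →ₗ[k] V →ₗ[k] V)

noncomputable def coc : LinearMap.BilinMap k (TrivSqZeroExt k V) (TrivSqZeroExt k V) :=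
  (φ.compl₁₂ (sndHom k V) (sndHom k V)).compr₂ (inrHom k V)

noncomputable def dm : k[ε] ⊗[k] TrivSqZeroExt k V →ₗ[k[ε]] k[ε] ⊗[k] TrivSqZeroExt k V →ₗ[k[ε]]
    k[ε] ⊗[k] TrivSqZeroExt k V := LinearMap.mul _ _ + (ε : k[ε]) • (coc φ).baseChange k[ε]

lemma dm_tmul (r s : k[ε]) (a b : TrivSqZeroExt k V) :
    dm φ (r ⊗ₜ a) (s ⊗ₜ b) = (r * s) ⊗ₜ (a * b) + (ε * (r * s)) ⊗ₜ inr (φ a.snd b.snd) := by
  simp [dm, coc, smul_tmul']

lemma isDef : (∀ x y z, dm φ (dm φ x y) z = dm φ x (dm φ y z)) ∧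
    (∃ e, ∀ x, dm φ e x = x ∧ dm φ x e = x) ∧
    ∀ x y, redL k _ (dm φ x y) = redL k _ x * redL k _ y := by
  refine ⟨fun x y z => ?_, ⟨1, fun x => ?_⟩, fun x y => ?_⟩
  · induction x using TensorProduct.induction_on with
    | zero => simp
    | add x x' h h' => simp [h, h']
    | tmul r a => induction y using TensorProduct.induction_on with
      | zero => simp
      | add y y' h h' => simp [h, h']
      | tmul s b => induction z using TensorProduct.induction_on with
        | zero => simp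
        | add z z' h h' => simp [h, h']
        | tmul t c =>
          have h1 : ∀ q : k[ε], ε * (ε * q) = 0 := fun q => by rw [← mul_assoc, eps_mul_eps, zero_mul]
          simp only [dm_tmul, map_add, LinearMap.add_apply, mul_assoc, mul_left_comm r ε, h1,
            zero_tmul, add_zero, add_assoc, ← tmul_add]
          congr 2
          ext <;> simp
          abel
  · induction x using TensorProduct.induction_on with
    | zero => simp
    | add x x' h h' => simp [h, h']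
    | tmul r a => simp [Algebra.TensorProduct.one_def, dm_tmul]
  · induction x using TensorProduct.induction_on with
    | zero => simp
    | add x x' h h' => simp [h, h', add_mul]
    | tmul r a => induction y using TensorProduct.induction_on with
      | zero => simp
      | add y y' h h' => simp [h, h', mul_add]
      | tmul s b => simp [dm_tmul, redL, smul_smul, mul_comm]

lemma not_equiv (hφ : ∀ u, φ u u = 0 → u = 0) (hV : ¬ Module.Finite k V) (B : Type*) [Ring B]
    [Algebra k B] [Module B (TrivSqZeroExt k V)] [IsScalarTower k B (TrivSqZeroExt k V)]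
    [SMulCommClass B k (TrivSqZeroExt k V)] (F : k[ε] ⊗[k] (B ⊗[k] B)) (hF : redL k _ F = 1)
    (m' : _ →ₗ[k[ε]] _ →ₗ[k[ε]] _)
    (hm : ∀ a a', m' (1 ⊗ₜ a) (1 ⊗ₜ a') = (act k B a a').lTensor k[ε] F) :
    ∀ Φ : _ →ₗ[k[ε]] _, (∀ x, redL k _ (Φ x) = redL k _ x) →
    ¬ ∀ x y, Φ (dm φ x y) = m' (Φ x) (Φ y) := by
  intro Φ h1 h2
  obtain ⟨S, hS⟩ := exists_finset (coe1 k _ F)
  let f := coe1 k _ ∘ₗ Φ.restrictScalars k ∘ₗ TensorProduct.mk k k[ε] _ 1
  let g := fun b : B => (fstHom k k V).toLinearMap ∘ₗ DistribSMul.toLinearMap k _ b ∘ₗ inrHom k V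
  let L := ((fstHom k k V).toLinearMap ∘ₗ f ∘ₗ inrHom k V).prod
    ((LinearMap.pi fun i : S => g i.1.1).prod (LinearMap.pi fun i : S => g i.1.2))
  refine hV (.of_injective L ((injective_iff_map_eq_zero _).mpr fun u hu => hφ u ?_))
  have r1 : ∀ a : TrivSqZeroExt k V, redL k _ (1 ⊗ₜ a) = a := by simp [redL]
  have c1 : ∀ a b : TrivSqZeroExt k V, coe1 k _ (1 ⊗ₜ a + (ε : k[ε]) • 1 ⊗ₜ b) = b := by
    simp [coe1, smul_tmul']
  have h3 : ∀ a, Φ (1 ⊗ₜ a) = 1 ⊗ₜ a + (ε : k[ε]) • 1 ⊗ₜ f a := fun a => by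
    rw [decomp (Φ _), h1, r1]; rfl
  have h4 : ∀ a a', m' (1 ⊗ₜ a) (1 ⊗ₜ a') =
      1 ⊗ₜ (a * a') + (ε : k[ε]) • 1 ⊗ₜ act k B a a' (coe1 k _ F) := fun a a' => by
    rw [hm, decomp F, hF]
    simp [smul_tmul', act, orb, Algebra.TensorProduct.one_def, coe1]
  have h5 := h2 (1 ⊗ₜ inr u) (1 ⊗ₜ inr u)
  have h6 : ∀ a b : TrivSqZeroExt k V, a.fst = 0 → b.fst = 0 → a * b = 0 := fun a b ha hb => by
    ext <;> simp [ha, hb]
  have h7 : act k B (inr u : TrivSqZeroExt k V) (inr u) (coe1 k _ F) = 0 := by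
    rw [hS, map_sum]
    exact Finset.sum_eq_zero fun i hi => h6 _ _ (congrFun (congrArg (·.2.1) hu) ⟨i, hi⟩)
      (congrFun (congrArg (·.2.2) hu) ⟨i, hi⟩)
  have h8 : (f (inr u)).fst = 0 := congrArg (·.1) hu
  rw [dm_tmul, mul_one, inr_mul_inr, tmul_zero, zero_add, ← smul_eq_mul, ← smul_tmul', map_smul, h3,
    h3] at h5
  simp only [map_add, map_smul, LinearMap.add_apply, LinearMap.smul_apply, h4, smul_add, smul_smul,
    eps_mul_eps, zero_smul, add_zero, h7, h6 _ _ h8 (fst_inr k u), h6 _ _ (fst_inr k u) h8,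
    inr_mul_inr, tmul_zero, smul_zero, zero_mul, snd_inr] at h5
  have := c1 0 (inr (φ u u))
  rw [tmul_zero, zero_add, h5, map_zero] at this
  simpa using congrArg snd this.symm

/-- A deformation over `k[t]/(t²)` of a unital algebra that is not equivalent to any deformation
`a * a' = μ(F(a ⊗ a'))` with `F ≡ 1 ⊗ 1`, for any bialgebra `B` acting on `A`. -/
theorem result (k : Type u) [Field k] [CharZero k] :
    ∃ (A : Type u) (_ : Ring A) (_ : Algebra k A) (m : Ext k A → Ext k A → Ext k A),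
      IsDeformation m ∧
      ∀ (B : Type v) [Ring B] [Bialgebra k B] [Module B A] [IsScalarTower k B A]
        (m' : Ext k A → Ext k A → Ext k A), IsTwist B m' → ¬ Equivalent m m' := by
  let φ : (ℕ →₀ k) →ₗ[k] (ℕ →₀ k) →ₗ[k] ℕ →₀ k := LinearMap.mk₂ k (· * ·) add_mul
    (fun _ _ _ => by ext; simp [mul_assoc]) mul_add fun _ _ _ => by ext; simp [mul_left_comm]
  refine ⟨TrivSqZeroExt k (ℕ →₀ k), _, _, fun x y => dm φ x y, ⟨⟨fun x => (dm φ x).isLinear,
    fun y => ((dm φ).flip y).isLinear⟩, isDef φ⟩,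
    fun B _ _ _ _ m' ⟨hm, F, h, h'⟩ ⟨Φ, h1, _, h2, h3⟩ => ?_⟩
  have : SMulCommClass B k (TrivSqZeroExt k (ℕ →₀ k)) := (IsScalarTower.to_smulCommClass).symm
  exact not_equiv φ (fun u h => Finsupp.ext fun i => mul_self_eq_zero.mp (DFunLike.congr_fun h i))
    (fun _ => (Module.Finite.finite_basis (Finsupp.basisSingleOne (R := k) (ι := ℕ))).false) B F h
    (LinearMap.mk₂ k[ε] m' (fun x x' y => (hm.2 y).1 x x') (fun c x y => (hm.2 y).2 c x)
      (fun x => (hm.1 x).1) fun c x => (hm.1 x).2 c) h'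
    (IsLinearMap.mk' (R := k[ε]) Φ ⟨h1.1, h1.2⟩) h2 h3

end Pool.Agent.Results.MP_8ccf7f_al.Counterexample
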